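import Pool.Agent.R763.Bil6

set_option autoImplicit false
open Set Filter Topology

namespace Pool.Agent.Results.MP_fd4af6_gt.CauchyApprox

open Pool.Agent.R763.Bil

/-- Every continuous simple closed curve of length one which bounds a convex set, parametrised
counterclockwise by arc length, is the `C⁰` limit of a sequence of billiard tables which is Cauchy
for the geometric distance `d_B`. -/
theorem result (C : ℝ → ℂ) (hC : IsConvexCurve C) :
    ∃ α : ℕ → ℝ → ℂ, (∀ i, IsTable (α i)) ∧
      (∀ ε > 0, ∃ N, ∀ i ≥ N, ∀ j ≥ N, dB (α i) (α j) < ENNReal.ofReal ε) ∧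
      TendstoUniformly α C atTop :=
  main hC

end Pool.Agent.Results.MP_fd4af6_gt.CauchyApprox
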